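import Pool.Agent.J6H54.CG.Stm

/-!
# Module CG-25 of project CG of helper54: the affine model of `BS(1,k)`
-/

set_option autoImplicit false

namespace Pool.Agent.J6H78.CG25

open Pool.Agent.J6H54.CG

variable {k : ℕ}

/-- the points as elements of a group -/
def AG (_ : ℕ) : Type := ℚ × ℤ

instance : Mul (AG k) := ⟨fun a b => mul k a b⟩
instance : One (AG k) := ⟨((0, 0) : Pt)⟩
instance : Inv (AG k) := ⟨fun a => inv k a⟩

theorem mul_def (a b : AG k) : a * b = mul k a b := rfl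
theorem one_def : (1 : AG k) = ((0, 0) : Pt) := rfl
theorem inv_def (a : AG k) : a⁻¹ = inv k a := rfl

/-- the group -/
@[reducible] def grp (hk : 2 ≤ k) : Group (AG k) :=
  Group.ofLeftAxioms (fun a b c => mul_assoc' hk a b c) (fun a => one_mul' a)
    (fun a => inv_mul' hk a)

/-- the image of `a` -/
def ga (k : ℕ) : AG k := ((1, 0) : Pt)

/-- the image of `t` -/
def gt (k : ℕ) : AG k := ((0, 1) : Pt)

section
variable (hk : 2 ≤ k)
include hk

theorem ga_zpow (z : ℤ) : (letI := grp hk; ga k ^ z) = (((z : ℚ), 0) : Pt) := by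
  letI := grp hk
  have hk0 := kne hk
  show ga k ^ z = _
  induction z using Int.induction_on with
  | zero => rw [zpow_zero, one_def]; simp
  | succ n ih =>
    rw [zpow_add_one, ih]
    apply Prod.ext
    · show ((n : ℤ) : ℚ) + (k : ℚ) ^ (0 : ℤ) * 1 = _
      push_cast
      simp
    · rfl
  | pred n ih =>
    rw [zpow_sub_one, ih]
    apply Prod.ext
    · show ((-(n : ℤ) : ℤ) : ℚ) + (k : ℚ) ^ (0 : ℤ) * (-((k : ℚ) ^ (-(0 : ℤ)) * 1)) = _
      push_cast
      simp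
      ring
    · rfl

theorem gt_zpow (z : ℤ) : (letI := grp hk; gt k ^ z) = (((0 : ℚ), z) : Pt) := by
  letI := grp hk
  have hk0 := kne hk
  show gt k ^ z = _
  induction z using Int.induction_on with
  | zero => rw [zpow_zero, one_def]
  | succ n ih =>
    rw [zpow_add_one, ih]
    apply Prod.ext
    · show (0 : ℚ) + (k : ℚ) ^ (n : ℤ) * 0 = _
      simp
    · rfl
  | pred n ih =>
    rw [zpow_sub_one, ih]
    apply Prod.ext
    · show (0 : ℚ) + (k : ℚ) ^ (-(n : ℤ)) * (-((k : ℚ) ^ (-(1 : ℤ)) * 0)) = _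
      simp
    · show -(n : ℤ) + -1 = _
      ring

theorem rel_ok : ∀ r ∈ bsRel k, (letI := grp hk; FreeGroup.lift ![ga k, gt k] r) = 1 := by
  letI := grp hk
  intro r hr
  show FreeGroup.lift ![ga k, gt k] r = 1
  rw [bsRel, Set.mem_singleton_iff] at hr
  subst hr
  simp only [map_mul, map_inv, map_pow, FreeGroup.lift_apply_of]
  show gt k * ga k * (gt k)⁻¹ * (ga k ^ k)⁻¹ = 1
  have h1 : ga k ^ k = (((k : ℚ), 0) : Pt) := by
    have := ga_zpow hk (k : ℤ)
    rw [Int.cast_natCast] at this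
    rw [← this]
    exact (zpow_natCast _ _).symm
  rw [h1]
  apply Prod.ext
  · show ((0 : ℚ) + (k : ℚ) ^ (1 : ℤ) * 1) + (k : ℚ) ^ ((1 : ℤ) + 0) * (-((k : ℚ) ^ (-(1 : ℤ)) * 0)) +
      (k : ℚ) ^ ((1 : ℤ) + 0 + -1) * (-((k : ℚ) ^ (-(0 : ℤ)) * k)) = 0
    simp
  · rfl

end

/-- the homomorphism -/
noncomputable def F (hk : 2 ≤ k) : PresentedGroup (bsRel k) → AG k :=
  letI := grp hk
  PresentedGroup.toGroup (f := ![ga k, gt k]) (rel_ok hk)

theorem F_mul (hk : 2 ≤ k) (g h : PresentedGroup (bsRel k)) : F hk (g * h) = F hk g * F hk h := by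
  letI := grp hk
  exact map_mul (PresentedGroup.toGroup (f := ![ga k, gt k]) (rel_ok hk)) g h

theorem F_zpow (hk : 2 ≤ k) (g : PresentedGroup (bsRel k)) (z : ℤ) :
    F hk (g ^ z) = (letI := grp hk; F hk g ^ z) := by
  letI := grp hk
  exact map_zpow (PresentedGroup.toGroup (f := ![ga k, gt k]) (rel_ok hk)) g z

/-- the generator `a` -/
def a (k : ℕ) : PresentedGroup (bsRel k) := PresentedGroup.of 0

/-- the generator `t` -/
def t (k : ℕ) : PresentedGroup (bsRel k) := PresentedGroup.of 1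

theorem F_a (hk : 2 ≤ k) : F hk (a k) = ga k := by
  letI := grp hk
  exact PresentedGroup.toGroup.of (rel_ok hk)

theorem F_t (hk : 2 ≤ k) : F hk (t k) = gt k := by
  letI := grp hk
  exact PresentedGroup.toGroup.of (rel_ok hk)

theorem F_nf (hk : 2 ≤ k) (x n y : ℤ) :
    F hk (t k ^ x * a k ^ n * t k ^ y) = (((k : ℚ) ^ x * n, x + y) : Pt) := by
  rw [F_mul, F_mul, F_zpow, F_zpow, F_zpow, F_a, F_t, ga_zpow hk, gt_zpow hk, gt_zpow hk]
  apply Prod.ext
  · show (0 + (k : ℚ) ^ x * n) + (k : ℚ) ^ (x + 0) * 0 = _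
    simp
  · show x + 0 + y = _
    ring

theorem rel (k : ℕ) : t k * a k * (t k)⁻¹ = a k ^ k := by
  have h : (PresentedGroup.mk (bsRel k)) (FreeGroup.of 1 * FreeGroup.of 0 * (FreeGroup.of 1)⁻¹ *
      (FreeGroup.of 0 ^ k)⁻¹) = 1 :=
    PresentedGroup.one_of_mem (Set.mem_singleton _)
  simp only [map_mul, map_inv, map_pow] at h
  exact mul_inv_eq_one.1 h

theorem conj (k : ℕ) (n : ℤ) : t k * a k ^ n * (t k)⁻¹ = a k ^ ((k : ℤ) * n) := by
  rw [← conj_zpow, rel, ← zpow_natCast, ← zpow_mul]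

theorem conj_pow (k : ℕ) (j : ℕ) (n : ℤ) :
    t k ^ j * a k ^ n = a k ^ ((k : ℤ) ^ j * n) * t k ^ j := by
  induction j with
  | zero => simp
  | succ j ih =>
    have h := conj k ((k : ℤ) ^ j * n)
    rw [mul_inv_eq_iff_eq_mul] at h
    rw [pow_succ', mul_assoc, ih, ← mul_assoc, h, mul_assoc, ← pow_succ', ← mul_assoc, ← pow_succ']

theorem conj_inv (k : ℕ) (n : ℤ) : a k ^ n * (t k)⁻¹ = (t k)⁻¹ * a k ^ ((k : ℤ) * n) := by
  rw [← conj, ← mul_assoc, ← mul_assoc, inv_mul_cancel, one_mul]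

theorem nf (k : ℕ) (g : PresentedGroup (bsRel k)) :
    ∃ (i j : ℕ) (n : ℤ), g = ((t k)⁻¹) ^ i * a k ^ n * t k ^ j := by
  have hg : g ∈ Subgroup.closure (Set.range (PresentedGroup.of (rels := bsRel k))) := by
    rw [PresentedGroup.closure_range_of]
    exact Subgroup.mem_top g
  induction hg using Subgroup.closure_induction_right with
  | one => exact ⟨0, 0, 0, by simp⟩
  | mul_right x _ y hy ih =>
    obtain ⟨i, j, n, rfl⟩ := ih
    obtain ⟨b, rfl⟩ := hy
    fin_cases b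
    · refine ⟨i, j, n + (k : ℤ) ^ j, ?_⟩
      change _ * a k = _
      have h := conj_pow k j 1
      rw [zpow_one, mul_one] at h
      rw [mul_assoc, h, ← mul_assoc, mul_assoc _ (a k ^ n), ← zpow_add]
    · refine ⟨i, j + 1, n, ?_⟩
      change _ * t k = _
      rw [mul_assoc, ← pow_succ]
  | mul_inv_cancel x _ y hy ih =>
    obtain ⟨i, j, n, rfl⟩ := ih
    obtain ⟨b, rfl⟩ := hy
    fin_cases b
    · refine ⟨i, j, n - (k : ℤ) ^ j, ?_⟩
      change _ * (a k)⁻¹ = _
      have h := conj_pow k j (-1)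
      rw [zpow_neg_one, mul_neg_one] at h
      rw [mul_assoc, h, ← mul_assoc, mul_assoc _ (a k ^ n), ← zpow_add, ← sub_eq_add_neg]
    · change ∃ (i' j' : ℕ) (n' : ℤ), _ * (t k)⁻¹ = _
      rcases j with _ | j
      · refine ⟨i + 1, 0, (k : ℤ) * n, ?_⟩
        rw [pow_zero, mul_one, mul_one, mul_assoc, conj_inv, ← mul_assoc, ← pow_succ]
      · refine ⟨i, j, n, ?_⟩
        rw [pow_succ, ← mul_assoc, mul_assoc _ (t k), mul_inv_cancel, mul_one]

theorem nf' (k : ℕ) (g : PresentedGroup (bsRel k)) :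
    ∃ (i j : ℕ) (n : ℤ), g = t k ^ (-(i : ℤ)) * a k ^ n * t k ^ (j : ℤ) := by
  obtain ⟨i, j, n, h⟩ := nf k g
  refine ⟨i, j, n, ?_⟩
  rw [h, zpow_neg, zpow_natCast, zpow_natCast, inv_pow]

theorem m25 : S_model := by
  intro k hk
  refine ⟨F hk, F_mul hk, ?_, ?_⟩
  · letI := grp hk
    have hinj : Function.Injective (PresentedGroup.toGroup (f := ![ga k, gt k]) (rel_ok hk)) := by
      rw [injective_iff_map_eq_one]
      intro g hg
      have hg : F hk g = 1 := hg
      obtain ⟨i, j, n, rfl⟩ := nf' k g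
      rw [F_nf, one_def] at hg
      have h1 : (k : ℚ) ^ (-(i : ℤ)) * n = 0 := congrArg Prod.fst hg
      have h2 : -(i : ℤ) + j = 0 := congrArg Prod.snd hg
      have h3 : (n : ℚ) = 0 := (mul_eq_zero.1 h1).resolve_left (zpow_ne_zero _ (kne hk))
      have h4 : n = 0 := by exact_mod_cast h3
      rw [h4, zpow_zero, mul_one, ← zpow_add, h2, zpow_zero]
    exact hinj
  · intro p
    constructor
    · rintro ⟨g, rfl⟩
      obtain ⟨i, j, n, rfl⟩ := nf' k g
      rw [F_nf]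
      exact ka_shift hk (ka_int n) _
    · rintro ⟨d, n, hn⟩
      refine ⟨t k ^ (-(d : ℤ)) * a k ^ n * t k ^ (d + p.2), ?_⟩
      rw [F_nf]
      apply Prod.ext
      · show (k : ℚ) ^ (-(d : ℤ)) * n = p.1
        rw [← hn, mul_comm, mul_assoc, ← zpow_add₀ (kne hk), add_neg_cancel, zpow_zero, mul_one]
      · show -(d : ℤ) + (d + p.2) = p.2
        ring

end Pool.Agent.J6H78.CG25
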